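import Pool.Agent.H28.GUG.Targets
import Pool.Agent.H74.GUF.FN

/-!
# MP_c59857_nt, board `guc_modules`, FNG: the final theorem for arbitrary linear forms
-/

set_option autoImplicit false

open Finset Filter Topology

namespace Pool.Agent.H35.GUG

open Pool.Agent.H31.DP
open Pool.Agent.H31.GUF
open Pool.Agent.H28.GUG
open Pool.Agent.H28.GU (Gw Dl T_BC)
open Pool.Agent.H24.T2 (box)
open Pool.Agent.H74.GUF (abs_fz_le fz_shift noObs_shift noObs_anti sum_three sum_small pair_part)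

theorem sum_shift (G : ℤ → ℂ) (hG : ∀ m, ‖G m‖ ≤ 1) (N B : ℕ) (s : ℤ) (hs : s.natAbs ≤ B) :
    ‖∑ n ∈ Finset.Icc (1 : ℤ) N, G n‖ ≤ ‖∑ n ∈ Finset.Icc (1 : ℤ) N, G (n + s)‖ + 2 * B := by
  classical
  have h1 : ∑ n ∈ Finset.Icc (1 : ℤ) N, G (n + s) =
      ∑ m ∈ Finset.Icc (1 + s) (N + s), G m := by
    rw [← Finset.map_add_right_Icc, Finset.sum_map]
    rfl
  have h2 := Finset.sum_sdiff_sub_sum_sdiff (s₁ := Finset.Icc (1 + s) (N + s))
    (s₂ := Finset.Icc (1 : ℤ) N) (f := G)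
  have hb : ∀ S : Finset ℤ, S.card ≤ B → ‖∑ i ∈ S, G i‖ ≤ B := by
    intro S hS
    calc ‖∑ i ∈ S, G i‖ ≤ ∑ i ∈ S, ‖G i‖ := norm_sum_le _ _
      _ ≤ ∑ i ∈ S, (1 : ℝ) := Finset.sum_le_sum fun i _ => hG i
      _ = (S.card : ℝ) := by simp
      _ ≤ B := by exact_mod_cast hS
  have h3 : (Finset.Icc (1 : ℤ) N \ Finset.Icc (1 + s) (N + s)).card ≤ B := by
    have hsub : Finset.Icc (1 : ℤ) N \ Finset.Icc (1 + s) (N + s) ⊆
        Finset.Icc (1 : ℤ) s ∪ Finset.Icc (N + s + 1) N := by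
      intro z hz
      rw [Finset.mem_sdiff, Finset.mem_Icc, Finset.mem_Icc] at hz
      rw [Finset.mem_union, Finset.mem_Icc, Finset.mem_Icc]
      omega
    have := (Finset.card_le_card hsub).trans (Finset.card_union_le _ _)
    rw [Int.card_Icc, Int.card_Icc] at this
    omega
  have h4 : (Finset.Icc (1 + s) (N + s) \ Finset.Icc (1 : ℤ) N).card ≤ B := by
    have hsub : Finset.Icc (1 + s) (N + s) \ Finset.Icc (1 : ℤ) N ⊆
        Finset.Icc ((N : ℤ) + 1) (N + s) ∪ Finset.Icc (1 + s) 0 := by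
      intro z hz
      rw [Finset.mem_sdiff, Finset.mem_Icc, Finset.mem_Icc] at hz
      rw [Finset.mem_union, Finset.mem_Icc, Finset.mem_Icc]
      omega
    have := (Finset.card_le_card hsub).trans (Finset.card_union_le _ _)
    rw [Int.card_Icc, Int.card_Icc] at this
    omega
  rw [h1]
  have h5 : ∑ n ∈ Finset.Icc (1 : ℤ) N, G n =
      ∑ m ∈ Finset.Icc (1 + s) (N + s), G m +
        (∑ i ∈ Finset.Icc (1 : ℤ) N \ Finset.Icc (1 + s) (N + s), G i -
          ∑ i ∈ Finset.Icc (1 + s) (N + s) \ Finset.Icc (1 : ℤ) N, G i) := by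
    rw [h2]
    ring
  rw [h5]
  refine (norm_add_le _ _).trans ?_
  have h6 := norm_sub_le
    (∑ i ∈ Finset.Icc (1 : ℤ) N \ Finset.Icc (1 + s) (N + s), G i)
    (∑ i ∈ Finset.Icc (1 + s) (N + s) \ Finset.Icc (1 : ℤ) N, G i)
  have h7 := hb _ h3
  have h8 := hb _ h4
  linarith

theorem bad_shift {r R J : ℕ} (β : Fin r → ℤ) (δ : Fin r → ℕ) (h : Fin r → ℕ) (B : ℕ)
    (hh : ∀ i, (h i : ℤ) = β i + B) (a₀ : ℤ) (b₀ : Fin R → ℤ) (a : Fin J → ℤ)
    (b : Fin J → Fin R → ℤ) (s : ℤ) (hs : a₀ * s = B) (hsB : s.natAbs ≤ B) (η : ℝ)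
    (hη : 0 < η) (N : ℕ) (hN : 4 * (B : ℝ) ≤ η * N) (hBad : BadG β δ a₀ b₀ a b η N) :
    BadG (fun i => (h i : ℤ)) δ a₀ b₀ a b (η / 2) N := by
  classical
  obtain ⟨F, hF, hcard⟩ := hBad
  refine ⟨fun j m => F j (m + a j * s), fun j m => hF j _, ?_⟩
  have hN0 : (0 : ℝ) ≤ (N : ℝ) := Nat.cast_nonneg N
  have h1 : η / 2 * (N : ℝ) ^ R ≤ η * (N : ℝ) ^ R := by
    have : (0 : ℝ) ≤ η * (N : ℝ) ^ R := by positivity
    linarith
  refine lt_of_le_of_lt h1 (lt_of_lt_of_le hcard ?_)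
  norm_cast
  refine Finset.card_le_card ?_
  intro t ht
  rw [Finset.mem_filter] at ht ⊢
  refine ⟨ht.1, ?_⟩
  set G : ℤ → ℂ := fun n => ((fz β δ (a₀ * n + dot b₀ t) : ℝ) : ℂ) *
    ∏ j, F j (a j * n + dot (b j) t) with hG
  have hG1 : ∀ m, ‖G m‖ ≤ 1 := by
    intro m
    rw [hG]
    simp only
    rw [norm_mul, Complex.norm_real, Real.norm_eq_abs, norm_prod]
    have h2 : ∏ j, ‖F j (a j * m + dot (b j) t)‖ ≤ 1 :=
      Finset.prod_le_one (fun j _ => norm_nonneg _) fun j _ => hF j _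
    have h3 := abs_fz_le β δ (a₀ * m + dot b₀ t)
    exact mul_le_one₀ h3 (Finset.prod_nonneg fun j _ => norm_nonneg _) h2
  have h2 := sum_shift G hG1 N B s hsB
  have h3 : ∑ n ∈ Finset.Icc (1 : ℤ) N,
      ((fz (fun i => (h i : ℤ)) δ (a₀ * n + dot b₀ t) : ℝ) : ℂ) *
      ∏ j, F j (a j * n + dot (b j) t + a j * s) = ∑ n ∈ Finset.Icc (1 : ℤ) N, G (n + s) := by
    refine Finset.sum_congr rfl fun n _ => ?_
    rw [hG]
    simp only
    rw [fz_shift β δ h B hh, ← hs]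
    congr 1
    · congr 2
      ring
    · refine Finset.prod_congr rfl fun j _ => ?_
      congr 1
      ring
  rw [h3]
  have h4 : η * N < ‖∑ n ∈ Finset.Icc (1 : ℤ) N, G n‖ := ht.2
  linarith

theorem pf_FNG (hF0 : G_F0) (hNP : F_NP) : G_FN := by
  classical
  intro r β δ R J a₀ b₀ a b η ρ hδ ha₀ hb hη hρ
  obtain ⟨b', hb'⟩ : ∃ b' : ℕ, b' = ∑ i, (β i).natAbs := ⟨_, rfl⟩
  have ha1 : 1 ≤ a₀.natAbs := Int.natAbs_pos.2 ha₀
  obtain ⟨B, hB⟩ : ∃ B : ℕ, B = a₀.natAbs * b' := ⟨_, rfl⟩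
  obtain ⟨s, hs⟩ : ∃ s : ℤ, a₀ * s = B := by
    refine ⟨a₀.sign * b', ?_⟩
    rw [← mul_assoc, Int.mul_sign_self, hB]
    push_cast
    rfl
  have hsB : s.natAbs ≤ B := by
    have h1 : a₀.natAbs * s.natAbs = B := by
      rw [← Int.natAbs_mul, hs, Int.natAbs_natCast]
    rw [← h1]
    exact Nat.le_mul_of_pos_left _ ha1
  have hβB : ∀ i, 0 ≤ β i + B := by
    intro i
    have h1 : (β i).natAbs ≤ b' := by
      rw [hb']
      exact Finset.single_le_sum (f := fun i => (β i).natAbs) (fun _ _ => Nat.zero_le _)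
        (Finset.mem_univ i)
    have h2 : b' ≤ B := by
      rw [hB]
      exact Nat.le_mul_of_pos_left _ ha1
    omega
  set h : Fin r → ℕ := fun i => (β i + B).toNat with hh0
  have hh : ∀ i, (h i : ℤ) = β i + B := fun i => Int.toNat_of_nonneg (hβB i)
  obtain ⟨K₀, hK₀, h0⟩ := hF0 r h δ R J a₀ b₀ a b (η / 2) (ρ / 4) hδ ha₀ hb (by positivity)
    (by positivity)
  obtain ⟨K₂, h2⟩ := pair_part hNP β δ (2 * K₀) (ρ / 4) (by omega) (by positivity)
  set N₀ : ℕ := ⌈4 * (B : ℝ) / η⌉₊ + B with hN₀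
  set K : ℕ := max (max (2 * K₀) K₂) ⌈Real.exp (4 * N₀ / ρ)⌉₊ with hK
  have hK1 : 2 * K₀ ≤ K := (le_max_left _ _).trans (le_max_left _ _)
  have hK2 : K₂ ≤ K := (le_max_right _ _).trans (le_max_left _ _)
  have hK3 : Real.exp (4 * N₀ / ρ) ≤ K := by
    have h3 : ⌈Real.exp (4 * N₀ / ρ)⌉₊ ≤ K := le_max_right _ _
    exact (Nat.le_ceil _).trans (by exact_mod_cast h3)
  refine ⟨K, fun x y hx hxy => ?_⟩
  have hx' : (0 : ℝ) < x := by exact_mod_cast hx
  have hmul : ∀ k : ℕ, k ≤ K → k * x ≤ y := fun k hk => (Nat.mul_le_mul_right x hk).trans hxy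
  have hxy' : x ≤ y := by
    have := hmul 1 (by omega)
    omega
  have hlog : 4 * N₀ / ρ ≤ Real.log ((y : ℝ) / x) := by
    have h3 : Real.exp (4 * N₀ / ρ) ≤ (y : ℝ) / x := by
      refine hK3.trans ?_
      rw [le_div_iff₀ hx']
      exact_mod_cast hxy
    have := Real.log_le_log (Real.exp_pos _) h3
    rwa [Real.log_exp] at this
  have hlog0 : 0 ≤ Real.log ((y : ℝ) / x) := le_trans (by positivity) hlog
  have key : ∀ N ∈ Finset.Icc x y, ((Pair β δ ∨ NoObs β δ K N) ∧ BadG β δ a₀ b₀ a b η N) →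
      N < N₀ ∨ (Pair β δ ∧ ¬ NoObs β δ (2 * K₀) N) ∨
      (NoObs (fun i => (h i : ℤ)) δ K₀ N ∧
        BadG (fun i => (h i : ℤ)) δ a₀ b₀ a b (η / 2) N) := by
      intro N hN hP
      by_cases hsm : N < N₀
      · exact Or.inl hsm
      · right
        have hNN : N₀ ≤ N := not_lt.1 hsm
        by_cases hO : NoObs β δ (2 * K₀) N
        · right
          have hBN : B ≤ N := by omega
          refine ⟨noObs_shift β δ h B hh K₀ N hK₀ hBN hO, ?_⟩
          refine bad_shift β δ h B hh a₀ b₀ a b s hs hsB η hη N ?_ hP.2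
          have h3 : 4 * (B : ℝ) / η ≤ N := by
            have h4 : ⌈4 * (B : ℝ) / η⌉₊ ≤ N := by omega
            exact (Nat.le_ceil _).trans (by exact_mod_cast h4)
          rw [div_le_iff₀ hη] at h3
          linarith
        · left
          refine ⟨?_, hO⟩
          rcases hP.1 with h3 | h3
          · exact h3
          · exact absurd (noObs_anti β δ (2 * K₀) K N (by omega) hK1 h3) hO
  have k2 := h2 x y hx (hmul K₂ hK2) hxy'
  have k3 := h0 x y hx (hmul K₀ (by omega))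
  have k4 : (N₀ : ℝ) ≤ ρ / 4 * Real.log ((y : ℝ) / x) := by
    rw [div_le_iff₀ hρ] at hlog
    linarith
  have k5 : 0 ≤ ρ * Real.log ((y : ℝ) / x) := by positivity
  have k6 := add_le_add (add_le_add ((sum_small N₀ x y hx (D := Classical.decPred _)).trans k4)
    k2) k3
  refine (sum_three (Finset.Icc x y) _ _ _ _ (fun N => 1 / (N : ℝ)) (fun N => by positivity)
    key).trans (k6.trans ?_)
  linarith

end Pool.Agent.H35.GUG
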